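import Pool.Agent.Helper14.TL7.StD

/-!
# Project TL, prime 7, module Tri: triangular system of symbols modulo 7
-/

set_option autoImplicit false

namespace Pool.Agent.Helper1.TL7

open Pool.Agent.Helper14.TL7
open Pool.Agent.Helper84.S7
open Pool.Agent.Helper4.TL (SymE)

section main

variable {r s : ℕ}

/-- The value only depends on the leading form. -/
private theorem lead_Tri (hl : S7Low0) (O : Module.End (ZMod 7) (Fn7 (7 ^ r) (7 ^ s)))
    (k : ℤ) (hO : Lw O k) (F L : Fn7 (7 ^ r) (7 ^ s)) (h : F - L ∈ Wd7 (k - 1)) :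
    O F = O L := by
  have h1 := hO _ _ h
  have h2 : k - 1 - k = -1 := by ring
  rw [h2] at h1
  have h3 := (hl r s).2.2.2.2.2.2.2.2.2.2.2.2.2 _ h1
  rw [map_sub] at h3
  exact sub_eq_zero.1 h3

private theorem relE_add_Tri (F0 F1 : Fn7 (7 ^ r) (7 ^ s)) (h : RelE ![F0, 0])
    (h' : RelE ![F1, 0]) : RelE ![F0 + F1, 0] := by
  refine ⟨fun x y => h.1 x y, fun x y => ?_⟩
  have h1 := h.2 x y
  have h2 := h'.2 x y
  have t : ∀ a b c d : ℤ, tr7 a b c d (F0 + F1) x y =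
      tr7 a b c d F0 x y + tr7 a b c d F1 x y := fun _ _ _ _ => rfl
  have t0 : ∀ a b c d : ℤ, tr7 a b c d (0 : Fn7 (7 ^ r) (7 ^ s)) x y = 0 :=
    fun _ _ _ _ => rfl
  change F0 x y + tr7 1 1 0 1 F0 x y - (0 : Fn7 (7 ^ r) (7 ^ s)) x y +
    (tr7 5 (-3) 1 (-4) F0 x y + tr7 5 2 1 3 F0 x y -
      tr7 5 (-3) 1 (-4) (0 : Fn7 (7 ^ r) (7 ^ s)) x y) +
    (tr7 4 (-3) 1 (-5) F0 x y + tr7 4 1 1 2 F0 x y -
      tr7 4 (-3) 1 (-5) (0 : Fn7 (7 ^ r) (7 ^ s)) x y) = 0 at h1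
  change F1 x y + tr7 1 1 0 1 F1 x y - (0 : Fn7 (7 ^ r) (7 ^ s)) x y +
    (tr7 5 (-3) 1 (-4) F1 x y + tr7 5 2 1 3 F1 x y -
      tr7 5 (-3) 1 (-4) (0 : Fn7 (7 ^ r) (7 ^ s)) x y) +
    (tr7 4 (-3) 1 (-5) F1 x y + tr7 4 1 1 2 F1 x y -
      tr7 4 (-3) 1 (-5) (0 : Fn7 (7 ^ r) (7 ^ s)) x y) = 0 at h2
  change (F0 + F1) x y + tr7 1 1 0 1 (F0 + F1) x y - (0 : Fn7 (7 ^ r) (7 ^ s)) x y +
    (tr7 5 (-3) 1 (-4) (F0 + F1) x y + tr7 5 2 1 3 (F0 + F1) x y -
      tr7 5 (-3) 1 (-4) (0 : Fn7 (7 ^ r) (7 ^ s)) x y) +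
    (tr7 4 (-3) 1 (-5) (F0 + F1) x y + tr7 4 1 1 2 (F0 + F1) x y -
      tr7 4 (-3) 1 (-5) (0 : Fn7 (7 ^ r) (7 ^ s)) x y) = 0
  have z : (0 : Fn7 (7 ^ r) (7 ^ s)) x y = 0 := rfl
  have a : (F0 + F1) x y = F0 x y + F1 x y := rfl
  simp only [t0, z, sub_zero] at h1 h2
  simp only [t, t0, z, a, sub_zero]
  linear_combination h1 + h2

end main

private theorem ab_Tri (c : ℕ) (hc : c ≤ 3) :
    (c = 0 ∧ aaE c = 1 ∧ abE c = 0) ∨ (c = 1 ∧ aaE c = 2 ∧ abE c = 0) ∨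
    (c = 2 ∧ aaE c = 4 ∧ abE c = 0) ∨ (c = 3 ∧ aaE c = 6 ∧ abE c = 1) := by
  interval_cases c <;> simp [aaE, abE]

private theorem dg_Tri (c i j : ℕ) :
    dgE c i j = (aaE c + i + 7 * j) + (abE c + i + j) := by
  unfold dgE
  ring

private theorem three_Tri : (3 : ZMod 7) ≠ 0 := by decide

private theorem q00_Tri : ((qOE 0 0 : ℤ) : ZMod 7) ≠ 0 := by decide

private theorem q01_Tri : ((qOE 0 0 : ℤ) : ZMod 7) + ((qOE 0 1 : ℤ) : ZMod 7) ≠ 0 := by
  decide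

private theorem q10_Tri : ((qOE 1 0 : ℤ) : ZMod 7) ≠ 0 := by decide

private theorem q20_Tri : ((qOE 2 0 : ℤ) : ZMod 7) ≠ 0 := by decide

private theorem q31_Tri : ((qOE 3 1 : ℤ) : ZMod 7) ≠ 0 := by decide

private theorem q3_Tri : ((qOE 3 0 : ℤ) : ZMod 7) + ((qOE 3 1 : ℤ) : ZMod 7) = 0 := by
  decide

/-- TRI. -/
theorem hTri (hl : S7Low0) (hb : S7Bb) (hd : TLed) (hx : TEx) (hi : TItr) (hf : TTrf) :
    TTri := by
  intro r s c i j hc hr hs
  have hp7 : Fact (Nat.Prime 7) := ⟨by norm_num⟩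
  obtain ⟨A, hA⟩ : ∃ A, A = aaE c + i + 7 * j := ⟨_, rfl⟩
  obtain ⟨B, hB⟩ : ∃ B, B = abE c + i + j := ⟨_, rfl⟩
  have hdg : dgE c i j = A + B := by rw [dg_Tri, hA, hB]
  have hrh : rhE c i j = B := by rw [hB]; rfl
  rw [← hA] at hr
  rw [← hB] at hs
  have hAB : ¬ (3 : ℤ) ∣ (A : ℤ) - B := by
    rcases ab_Tri c hc with ⟨-, h1, h2⟩ | ⟨-, h1, h2⟩ | ⟨-, h1, h2⟩ | ⟨-, h1, h2⟩ <;>
      rw [h1] at hA <;> rw [h2] at hB <;> omega
  -- the leading form
  obtain ⟨L, hL⟩ : ∃ L : Fn7 (7 ^ r) (7 ^ s), L = bb7 A B +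
      (if c = 0 ∧ B + 1 < 7 ^ s then bb7 (A - 1) (B + 1) else 0) := ⟨_, rfl⟩
  have hLd : L ∈ Wd7 ((A : ℤ) + B) := by
    rw [hL]
    refine Submodule.add_mem _ ((hb r s).1 A B hr hs) ?_
    split_ifs with h
    · have hA1 : 1 ≤ A := by
        rcases ab_Tri c hc with ⟨-, h1, h2⟩ | ⟨h0, -, -⟩ | ⟨h0, -, -⟩ | ⟨h0, -, -⟩
        · rw [h1] at hA; omega
        all_goals omega
      have h1 := (hb r s).1 (A - 1) (B + 1) (by omega) h.2
      have h2 : ((A - 1 : ℕ) : ℤ) + ((B + 1 : ℕ) : ℤ) = (A : ℤ) + B := by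
        push_cast [hA1]
        ring
      rw [h2] at h1
      exact h1
    · exact Submodule.zero_mem _
  have hF : ∃ F0 : Fn7 (7 ^ r) (7 ^ s), RelE ![F0, 0] ∧ F0 - L ∈ Wd7 ((A : ℤ) + B - 1) := by
    obtain ⟨Fa, ha1, ha2⟩ := hd r s A B hr hs hAB
    by_cases h : c = 0 ∧ B + 1 < 7 ^ s
    · have hA1 : A = 1 + i + 7 * j ∧ B = 0 + i + j := by
        rcases ab_Tri c hc with ⟨-, h1, h2⟩ | ⟨h0, -, -⟩ | ⟨h0, -, -⟩ | ⟨h0, -, -⟩
        · rw [h1] at hA
          rw [h2] at hB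
          exact ⟨hA, hB⟩
        all_goals omega
      obtain ⟨Fb, hb1, hb2⟩ := hd r s (A - 1) (B + 1) (by omega) h.2 (by omega)
      refine ⟨Fa + Fb, relE_add_Tri _ _ ha1 hb1, ?_⟩
      have h2 : ((A - 1 : ℕ) : ℤ) + ((B + 1 : ℕ) : ℤ) - 1 = (A : ℤ) + B - 1 := by omega
      rw [h2] at hb2
      rw [hL, if_pos h, add_sub_add_comm]
      exact Submodule.add_mem _ ha2 hb2
    · refine ⟨Fa, ha1, ?_⟩
      rw [hL, if_neg h, add_zero]
      exact ha2
  obtain ⟨F0, hRel, hF0⟩ := hF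
  obtain ⟨G, hG, hGF⟩ := hx (ZMod 7) inferInstance r s ![F0, 0] hRel
  have hG0 : (pfE G 0 : Fn7 (7 ^ r) (7 ^ s)) = F0 := hGF 0
  have hG1 : (pfE G 1 : Fn7 (7 ^ r) (7 ^ s)) = 0 := hGF 1
  have hF0d : F0 ∈ Wd7 ((A : ℤ) + B) := by
    have h1 : F0 = (F0 - L) + L := by rw [sub_add_cancel]
    rw [h1]
    exact Submodule.add_mem _ ((hl r s).2.2.2.2.1 _ _ (by omega) hF0) hLd
  have hdz : ((A + B : ℕ) : ℤ) = (A : ℤ) + B := by push_cast; ring
  have hI := hi r s G (A + B) hG (by rw [hG0, hdz]; exact hF0d)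
    (by rw [hG1]; exact Submodule.zero_mem _)
  have hval : ∀ c' i' j' : ℕ, c' ≤ 3 → dgE c' i' j' = A + B →
      evE (2 * 7 ^ r) G c' i' j' =
        ((MoE c' * QoE ^ i' * LoE ^ j' : Module.End (ZMod 7) (Fn7 (7 ^ r) (7 ^ s)))
          (bb7 A B)) 0 0 +
        (if c = 0 ∧ B + 1 < 7 ^ s then
          ((MoE c' * QoE ^ i' * LoE ^ j' : Module.End (ZMod 7) (Fn7 (7 ^ r) (7 ^ s)))
          (bb7 (A - 1) (B + 1))) 0 0 else 0) := by
    intro c' i' j' hc' h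
    rw [(hI c' i' j' hc').2 h, hG0]
    have h1 := (hf r s).1 c' i' j' hc'
    rw [h, hdz] at h1
    rw [lead_Tri hl _ _ h1 F0 L hF0, hL, map_add]
    split_ifs with h2
    · rfl
    · rw [map_zero]
      rfl
  refine ⟨G, hG, ?_, ?_⟩
  · rw [hval c i j hc hdg]
    have hT := (hf r s).2 c i j
    have h3 : (3 : ZMod 7) ^ i ≠ 0 := pow_ne_zero _ three_Tri
    rcases ab_Tri c hc with ⟨h0, h1, h2⟩ | ⟨h0, h1, h2⟩ | ⟨h0, h1, h2⟩ | ⟨h0, h1, h2⟩
    · subst h0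
      rw [h1] at hA
      rw [h2] at hB
      rw [(hT A B hc hr hs hdg.symm).2.1 (by omega)]
      split_ifs with h4
      · rw [(hT (A - 1) (B + 1) hc (by omega) h4.2 (by omega)).2.2 (by omega), ← mul_add]
        exact mul_ne_zero h3 q01_Tri
      · rw [add_zero]
        exact mul_ne_zero h3 q00_Tri
    · subst h0
      rw [h2] at hB
      rw [(hT A B hc hr hs hdg.symm).2.1 (by omega), if_neg (by omega), add_zero]
      exact mul_ne_zero h3 q10_Tri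
    · subst h0
      rw [h2] at hB
      rw [(hT A B hc hr hs hdg.symm).2.1 (by omega), if_neg (by omega), add_zero]
      exact mul_ne_zero h3 q20_Tri
    · subst h0
      rw [h2] at hB
      rw [(hT A B hc hr hs hdg.symm).2.2 (by omega), if_neg (by omega), add_zero]
      exact mul_ne_zero h3 q31_Tri
  · intro c' i' j' hc' hr' hs' hne
    rw [hdg, hrh]
    rcases lt_trichotomy (dgE c' i' j') (A + B) with h | h | h
    · exact Or.inl h
    · refine Or.inr ⟨h, ?_⟩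
      by_contra hcon
      apply hne
      rw [hval c' i' j' hc' h]
      have hT := (hf r s).2 c' i' j'
      have hdg' : A + B = (aaE c' + i' + 7 * j') + (abE c' + i' + j') := by
        rw [← h, dg_Tri]
      have hrh' : rhE c' i' j' = abE c' + i' + j' := rfl
      rw [hrh'] at hcon
      -- the large case
      have hbig : B + 1 < i' + j' →
          ((MoE c' * QoE ^ i' * LoE ^ j' : Module.End (ZMod 7) (Fn7 (7 ^ r) (7 ^ s)))
            (bb7 A B)) 0 0 +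
          (if c = 0 ∧ B + 1 < 7 ^ s then
            ((MoE c' * QoE ^ i' * LoE ^ j' : Module.End (ZMod 7) (Fn7 (7 ^ r) (7 ^ s)))
            (bb7 (A - 1) (B + 1))) 0 0 else 0) = 0 := by
        intro h5
        rw [(hT A B hc' hr hs h.symm).1 (by omega), zero_add]
        split_ifs with h4
        · have hA1 : 1 ≤ A := by
            rcases ab_Tri c hc with ⟨-, h1, h2⟩ | ⟨h0, -, -⟩ | ⟨h0, -, -⟩ | ⟨h0, -, -⟩
            · rw [h1] at hA; omega
            all_goals omega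
          exact (hT (A - 1) (B + 1) hc' (by omega) h4.2 (by omega)).1 (by omega)
        · rfl
      have hmid : c ≠ 0 → B < i' + j' →
          ((MoE c' * QoE ^ i' * LoE ^ j' : Module.End (ZMod 7) (Fn7 (7 ^ r) (7 ^ s)))
            (bb7 A B)) 0 0 +
          (if c = 0 ∧ B + 1 < 7 ^ s then
            ((MoE c' * QoE ^ i' * LoE ^ j' : Module.End (ZMod 7) (Fn7 (7 ^ r) (7 ^ s)))
            (bb7 (A - 1) (B + 1))) 0 0 else 0) = 0 := by
        intro h4 h5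
        rw [(hT A B hc' hr hs h.symm).1 h5, if_neg (fun h6 => h4 h6.1), add_zero]
      rcases ab_Tri c hc with ⟨h0, h1, h2⟩ | ⟨h0, h1, h2⟩ | ⟨h0, h1, h2⟩ | ⟨h0, h1, h2⟩ <;>
        rcases ab_Tri c' hc' with ⟨h0', h1', h2'⟩ | ⟨h0', h1', h2'⟩ | ⟨h0', h1', h2'⟩ |
          ⟨h0', h1', h2'⟩ <;>
        rw [h1] at hA <;> rw [h2] at hB <;> rw [h1', h2'] at hdg' <;> rw [h2'] at hcon hs'
      · exact hbig (by omega)
      · exfalso; omega
      · exfalso; omega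
      · rcases Nat.lt_or_ge (B + 1) (i' + j') with h5 | h5
        · exact hbig h5
        · have h6 : B = i' + j' := by omega
          subst h0
          subst h0'
          rw [(hT A B hc' hr hs h.symm).2.1 h6, if_pos ⟨rfl, by omega⟩,
            (hT (A - 1) (B + 1) hc' (by omega) (by omega) (by omega)).2.2 (by omega), ← mul_add]
          rw [q3_Tri, mul_zero]
      · exfalso; omega
      · exact hmid (by omega) (by omega)
      · exact hmid (by omega) (by omega)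
      · exfalso; omega
      · exfalso; omega
      · exact hmid (by omega) (by omega)
      · exact hmid (by omega) (by omega)
      · exfalso; omega
      · exact hmid (by omega) (by omega)
      · exfalso; omega
      · exfalso; omega
      · exact hmid (by omega) (by omega)
    · exact absurd ((hI c' i' j' hc').1 h) hne

end Pool.Agent.Helper1.TL7
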